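import Pool.Agent.Q265.BA.G3

/-!
# Project BA, job G: interpolation between square integrable and bounded functions
-/

set_option autoImplicit false

open MeasureTheory Set Filter Topology
open scoped ENNReal

namespace Pool.Agent.Q265.BA

open Pool.Agent.Q276.BA

theorem simple_eLpNorm {A : (ℂ → ℂ) → ℂ → ℂ} {M : ℝ} (hA : Op A M) (hM : 1 ≤ M) (p : ℝ)
    (hp : 2 ≤ p) (F : SimpleFunc ℂ ℂ) :
    eLpNorm (A F) (ENNReal.ofReal p) (volume : Measure ℂ) ≤
      ENNReal.ofReal (M ^ (1 - 2 / p)) * eLpNorm F (ENNReal.ofReal p) (volume : Measure ℂ) := by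
  have hp0 : 0 < p := by linarith
  have hM0 : 0 < M := by linarith
  have hq0 : ENNReal.ofReal p ≠ 0 := by simpa using hp0
  rw [eLpNorm_eq_lintegral_rpow_enorm_toReal hq0 ENNReal.ofReal_ne_top,
    eLpNorm_eq_lintegral_rpow_enorm_toReal hq0 ENNReal.ofReal_ne_top, ENNReal.toReal_ofReal hp0.le]
  by_cases htop : ∫⁻ z, ‖F z‖ₑ ^ p = ∞
  · rw [htop, ENNReal.top_rpow_of_pos (by positivity), ENNReal.mul_top]
    · exact le_top
    · have : 0 < M ^ (1 - 2 / p) := by positivity
      simpa using this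
  · have h1 := simple_bound hA hM p hp F htop
    calc (∫⁻ z, ‖A F z‖ₑ ^ p) ^ (1 / p)
        ≤ ((ENNReal.ofReal (M ^ (1 - 2 / p)) * (∫⁻ z, ‖F z‖ₑ ^ p) ^ (1 / p)) ^ p) ^ (1 / p) :=
          ENNReal.rpow_le_rpow h1 (by positivity)
      _ = _ := by
          rw [← ENNReal.rpow_mul, mul_one_div_cancel hp0.ne', ENNReal.rpow_one]

theorem g : S_G := by
  intro A M hM hA p hp f hf
  have hp0 : 0 < p := by linarith
  have hM0 : 0 < M := by linarith
  by_cases htop : eLpNorm f (ENNReal.ofReal p) (volume : Measure ℂ) = ∞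
  · rw [htop, ENNReal.mul_top]
    · exact le_top
    · have : 0 < M ^ (1 - 2 / p) := by positivity
      simpa using this
  obtain ⟨hfm, C, hC⟩ := hf
  set F : ℕ → SimpleFunc ℂ ℂ := fun n =>
    SimpleFunc.approxOn f hfm (range f ∪ {0}) 0 (by simp) n with hFdef
  have hbd : ∀ n z, ‖F n z‖ ≤ 2 * C := by
    intro n z
    have h1 := SimpleFunc.norm_approxOn_zero_le hfm (s := range f ∪ {0}) (by simp) z n
    have h2 := hC z
    show ‖SimpleFunc.approxOn f hfm (range f ∪ {0}) 0 (by simp) n z‖ ≤ 2 * C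
    linarith
  have hlim : ∀ z, Tendsto (fun n => F n z) atTop (𝓝 (f z)) := by
    intro z
    exact SimpleFunc.tendsto_approxOn hfm _ (subset_closure (by simp))
  have hcont := hA.cont (fun n => F n) f (2 * C) (fun n => (F n).measurable) hfm hbd hlim
  have hfatou := Lp.eLpNorm_lim_le_liminf_eLpNorm (p := ENNReal.ofReal p)
    (μ := (volume : Measure ℂ)) (f := fun n => A (F n))
    (fun n => (hA.meas _ (bm_simple (F n))).aestronglyMeasurable) (A f)
    (Eventually.of_forall hcont)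
  have hdiff : Tendsto (fun n => eLpNorm (⇑(F n) - f) (ENNReal.ofReal p) (volume : Measure ℂ))
      atTop (𝓝 0) :=
    SimpleFunc.tendsto_approxOn_range_Lp_eLpNorm ENNReal.ofReal_ne_top hfm
      (lt_top_iff_ne_top.2 htop)
  have hq1 : 1 ≤ ENNReal.ofReal p := by
    rw [← ENNReal.ofReal_one]
    exact ENNReal.ofReal_le_ofReal (by linarith)
  have hle : ∀ n, eLpNorm (A (F n)) (ENNReal.ofReal p) (volume : Measure ℂ) ≤
      ENNReal.ofReal (M ^ (1 - 2 / p)) *
        (eLpNorm (⇑(F n) - f) (ENNReal.ofReal p) (volume : Measure ℂ) +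
          eLpNorm f (ENNReal.ofReal p) (volume : Measure ℂ)) := by
    intro n
    refine (simple_eLpNorm hA hM p hp (F n)).trans ?_
    gcongr
    have h1 : (F n : ℂ → ℂ) = (⇑(F n) - f) + f := by
      funext z
      simp
    nth_rewrite 1 [h1]
    exact eLpNorm_add_le ((F n).measurable.sub hfm).aestronglyMeasurable
      hfm.aestronglyMeasurable hq1
  have hlim2 : Tendsto (fun n => ENNReal.ofReal (M ^ (1 - 2 / p)) *
        (eLpNorm (⇑(F n) - f) (ENNReal.ofReal p) (volume : Measure ℂ) +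
          eLpNorm f (ENNReal.ofReal p) (volume : Measure ℂ))) atTop
      (𝓝 (ENNReal.ofReal (M ^ (1 - 2 / p)) * eLpNorm f (ENNReal.ofReal p) (volume : Measure ℂ))) := by
    have h1 := ENNReal.Tendsto.const_mul (a := ENNReal.ofReal (M ^ (1 - 2 / p)))
      (hdiff.add_const (eLpNorm f (ENNReal.ofReal p) (volume : Measure ℂ)))
      (Or.inr ENNReal.ofReal_ne_top)
    rwa [zero_add] at h1
  calc eLpNorm (A f) (ENNReal.ofReal p) (volume : Measure ℂ)
      ≤ liminf (fun n => eLpNorm (A (F n)) (ENNReal.ofReal p) (volume : Measure ℂ)) atTop := hfatou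
    _ ≤ liminf (fun n => ENNReal.ofReal (M ^ (1 - 2 / p)) *
        (eLpNorm (⇑(F n) - f) (ENNReal.ofReal p) (volume : Measure ℂ) +
          eLpNorm f (ENNReal.ofReal p) (volume : Measure ℂ))) atTop :=
        liminf_le_liminf (Eventually.of_forall hle)
    _ = _ := hlim2.liminf_eq

end Pool.Agent.Q265.BA
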