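import Pool.Agent.Q276.BA.Stm

/-!
# Project BA, job G, part 1: the analytic families
-/

set_option autoImplicit false

open MeasureTheory Set Filter Topology
open scoped ENNReal

namespace Pool.Agent.Q265.BA

open Pool.Agent.Q276.BA

/-- the analytic family through `a` -/
noncomputable def fa (p : ℝ) (a w : ℂ) : ℂ :=
  a * Complex.exp (((p : ℂ) * w - 1) * (Real.log ‖a‖ : ℂ))

/-- the analytic family through the dual function -/
noncomputable def fb (p : ℝ) (t w : ℂ) : ℂ :=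
  (starRingEnd ℂ t / (‖t‖ : ℂ)) * Complex.exp ((p : ℂ) * (1 - w) * (Real.log ‖t‖ : ℂ))

theorem fa_zero (p : ℝ) (w : ℂ) : fa p 0 w = 0 := by unfold fa; rw [zero_mul]

theorem fb_zero (p : ℝ) (w : ℂ) : fb p 0 w = 0 := by unfold fb; simp

theorem norm_fa (p : ℝ) (a w : ℂ) (ha : a ≠ 0) : ‖fa p a w‖ = ‖a‖ ^ (p * w.re) := by
  unfold fa
  have h0 : 0 < ‖a‖ := norm_pos_iff.2 ha
  rw [norm_mul, Complex.norm_exp]
  have h1 : (((p : ℂ) * w - 1) * (Real.log ‖a‖ : ℂ)).re = (p * w.re - 1) * Real.log ‖a‖ := by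
    rw [Complex.re_mul_ofReal, Complex.sub_re, Complex.re_ofReal_mul, Complex.one_re]
  rw [h1, Real.rpow_def_of_pos h0]
  nth_rewrite 1 [← Real.exp_log h0]
  rw [← Real.exp_add]
  congr 1
  ring

theorem norm_fb (p : ℝ) (t w : ℂ) (ht : t ≠ 0) : ‖fb p t w‖ = ‖t‖ ^ (p * (1 - w.re)) := by
  unfold fb
  have h0 : 0 < ‖t‖ := norm_pos_iff.2 ht
  rw [norm_mul, Complex.norm_exp, norm_div, RCLike.norm_conj, Complex.norm_real, norm_norm,
    div_self h0.ne', one_mul]
  have h1 : ((p : ℂ) * (1 - w) * (Real.log ‖t‖ : ℂ)).re = p * (1 - w.re) * Real.log ‖t‖ := by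
    rw [Complex.re_mul_ofReal, Complex.re_ofReal_mul, Complex.sub_re, Complex.one_re]
  rw [h1, Real.rpow_def_of_pos h0]
  congr 1
  ring

theorem fa_zero_line (p : ℝ) (a w : ℂ) (hw : w.re = 0) : ‖fa p a w‖ ≤ 1 := by
  rcases eq_or_ne a 0 with rfl | ha
  · rw [fa_zero, norm_zero]; exact zero_le_one
  · rw [norm_fa p a w ha, hw, mul_zero, Real.rpow_zero]

theorem fa_half_line (p : ℝ) (hp : 0 < p) (a w : ℂ) (hw : w.re = 1 / 2) :
    ‖fa p a w‖ ^ (2 : ℝ) = ‖a‖ ^ p := by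
  rcases eq_or_ne a 0 with rfl | ha
  · rw [fa_zero, norm_zero, Real.zero_rpow hp.ne', Real.zero_rpow two_ne_zero]
  · rw [norm_fa p a w ha, hw, ← Real.rpow_mul (norm_nonneg _)]
    congr 1
    ring

theorem rpow_le_one_add (x y p : ℝ) (hx : 0 ≤ x) (hy : 0 ≤ y) (hyp : y ≤ p) :
    x ^ y ≤ (1 + x) ^ p :=
  (Real.rpow_le_rpow hx (by linarith) hy).trans
    (Real.rpow_le_rpow_of_exponent_le (by linarith) hyp)

theorem fa_strip (p : ℝ) (hp : 0 < p) (a w : ℂ) (h0 : 0 ≤ w.re) (h1 : w.re ≤ 1 / 2) :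
    ‖fa p a w‖ ≤ (1 + ‖a‖) ^ p := by
  rcases eq_or_ne a 0 with rfl | ha
  · rw [fa_zero, norm_zero]; positivity
  · rw [norm_fa p a w ha]
    exact rpow_le_one_add _ _ _ (norm_nonneg _) (by positivity) (by nlinarith)

theorem fb_strip (p : ℝ) (hp : 0 < p) (t w : ℂ) (h0 : 0 ≤ w.re) (h1 : w.re ≤ 1 / 2) :
    ‖fb p t w‖ ≤ (1 + ‖t‖) ^ p := by
  rcases eq_or_ne t 0 with rfl | ht
  · rw [fb_zero, norm_zero]; positivity
  · rw [norm_fb p t w ht]
    refine rpow_le_one_add _ _ _ (norm_nonneg _) ?_ (by nlinarith)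
    have : 0 ≤ 1 - w.re := by linarith
    positivity

theorem fa_at (p : ℝ) (hp : 0 < p) (a : ℂ) : fa p a ((1 / p : ℝ) : ℂ) = a := by
  unfold fa
  have hp0 : (p : ℂ) ≠ 0 := by exact_mod_cast hp.ne'
  rw [Complex.ofReal_div, Complex.ofReal_one, mul_one_div_cancel hp0, sub_self, zero_mul,
    Complex.exp_zero, mul_one]

theorem fb_at (p : ℝ) (hp : 0 < p) (t : ℂ) :
    fb p t ((1 / p : ℝ) : ℂ) * t = ((‖t‖ ^ p : ℝ) : ℂ) := by
  have hp0 : (p : ℂ) ≠ 0 := by exact_mod_cast hp.ne'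
  rcases eq_or_ne t 0 with rfl | h0
  · rw [mul_zero, norm_zero, Real.zero_rpow hp.ne', Complex.ofReal_zero]
  · have hpos : 0 < ‖t‖ := norm_pos_iff.2 h0
    unfold fb
    have h1 : (p : ℂ) * (1 - ((1 / p : ℝ) : ℂ)) * (Real.log ‖t‖ : ℂ) =
        (((p - 1) * Real.log ‖t‖ : ℝ) : ℂ) := by
      push_cast
      field_simp
    rw [h1, ← Complex.ofReal_exp]
    have h2 : Real.exp ((p - 1) * Real.log ‖t‖) = ‖t‖ ^ (p - 1) := by
      rw [Real.rpow_def_of_pos hpos, mul_comm]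
    rw [h2]
    have h3 : starRingEnd ℂ t * t = ((‖t‖ * ‖t‖ : ℝ) : ℂ) := by
      rw [mul_comm, Complex.mul_conj, Complex.normSq_eq_norm_sq, sq]
    have h4 : ‖t‖ ^ p = ‖t‖ ^ (p - 1) * ‖t‖ := by
      rw [← Real.rpow_add_one hpos.ne']
      congr 1
      ring
    have h5 : ((‖t‖ : ℝ) : ℂ) ≠ 0 := by exact_mod_cast hpos.ne'
    calc starRingEnd ℂ t / (‖t‖ : ℂ) * ((‖t‖ ^ (p - 1) : ℝ) : ℂ) * t
        = (starRingEnd ℂ t * t) * ((‖t‖ ^ (p - 1) : ℝ) : ℂ) / (‖t‖ : ℂ) := by ring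
      _ = ((‖t‖ ^ p : ℝ) : ℂ) := by
          rw [h3, h4]
          push_cast
          field_simp

theorem differentiable_fa (p : ℝ) (a : ℂ) : Differentiable ℂ (fa p a) := by
  unfold fa
  fun_prop

theorem hasDerivAt_fb (p : ℝ) (t w : ℂ) :
    HasDerivAt (fb p t) (fb p t w * (-(p : ℂ) * (Real.log ‖t‖ : ℂ))) w := by
  unfold fb
  have h1 : HasDerivAt (fun w : ℂ => (p : ℂ) * (1 - w) * (Real.log ‖t‖ : ℂ))
      (-(p : ℂ) * (Real.log ‖t‖ : ℂ)) w := by
    have h2 := (((hasDerivAt_id w).const_sub 1).const_mul (p : ℂ)).mul_const (Real.log ‖t‖ : ℂ)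
    refine h2.congr_deriv ?_
    ring
  have h3 := (h1.cexp).const_mul (starRingEnd ℂ t / (‖t‖ : ℂ))
  refine h3.congr_deriv ?_
  ring

theorem measurable_fb (p : ℝ) (w : ℂ) : Measurable fun t : ℂ => fb p t w := by
  unfold fb
  have h1 : Measurable fun t : ℂ => starRingEnd ℂ t := Complex.continuous_conj.measurable
  fun_prop

theorem measurable_fa (p : ℝ) (w : ℂ) : Measurable fun a : ℂ => fa p a w := by
  unfold fa
  fun_prop

theorem log_bound (c : ℝ) (hc : 1 ≤ c) (t : ℂ) (h1 : 1 / c ≤ ‖t‖) (h2 : ‖t‖ ≤ c) :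
    |Real.log ‖t‖| ≤ Real.log c := by
  have hc0 : 0 < c := by linarith
  have h0 : 0 < 1 / c := by positivity
  have h3 : 0 < ‖t‖ := h0.trans_le h1
  rw [abs_le]
  constructor
  · have := Real.log_le_log h0 h1
    rw [one_div, Real.log_inv] at this
    exact this
  · exact Real.log_le_log h3 h2

theorem fb_bound (p : ℝ) (hp : 0 < p) (c : ℝ) (hc : 1 ≤ c) (t : ℂ) (h1 : 1 / c ≤ ‖t‖)
    (h2 : ‖t‖ ≤ c) (w : ℂ) : ‖fb p t w‖ ≤ Real.exp (p * (1 + |w.re|) * Real.log c) := by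
  have hc0 : 0 < c := by linarith
  have h0 : t ≠ 0 := by
    intro h
    rw [h, norm_zero] at h1
    have h0 : 0 < 1 / c := by positivity
    linarith
  rw [norm_fb p _ w h0, Real.rpow_def_of_pos (norm_pos_iff.2 h0)]
  apply Real.exp_le_exp.2
  have h1 := log_bound c hc t h1 h2
  have h2 : |p * (1 - w.re)| ≤ p * (1 + |w.re|) := by
    rw [abs_mul, abs_of_pos hp]
    gcongr
    calc |1 - w.re| ≤ |1| + |w.re| := abs_sub _ _
      _ = 1 + |w.re| := by rw [abs_one]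
  calc Real.log ‖t‖ * (p * (1 - w.re)) ≤ |Real.log ‖t‖ * (p * (1 - w.re))| := le_abs_self _
    _ = |Real.log ‖t‖| * |p * (1 - w.re)| := abs_mul _ _
    _ ≤ Real.log c * (p * (1 + |w.re|)) := by gcongr; exact Real.log_nonneg hc
    _ = p * (1 + |w.re|) * Real.log c := by ring

theorem integrable_int (p : ℝ) (hp : 0 < p) (K : Set ℂ) (hK : volume K ≠ ∞)
    (hKm : MeasurableSet K) (c : ℝ) (hc : 1 ≤ c) (u φ : ℂ → ℂ) (hu : Measurable u)
    (huK : ∀ z ∈ K, 1 / c ≤ ‖u z‖ ∧ ‖u z‖ ≤ c) (hφ : Measurable φ) (C : ℝ) (hφC : ∀ z, ‖φ z‖ ≤ C)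
    (w : ℂ) : Integrable (fun z => fb p (u z) w * φ z) (volume.restrict K) := by
  have hfin : IsFiniteMeasure (volume.restrict K) := ⟨by
    rw [Measure.restrict_apply_univ]; exact lt_top_iff_ne_top.2 hK⟩
  refine Integrable.mono' (integrable_const (Real.exp (p * (1 + |w.re|) * Real.log c) * C))
    (((measurable_fb p w).comp hu).mul hφ).aestronglyMeasurable ?_
  rw [ae_restrict_iff' hKm]
  refine Eventually.of_forall fun z hz => ?_
  rw [norm_mul]
  exact mul_le_mul (fb_bound p hp c hc _ (huK z hz).1 (huK z hz).2 w) (hφC z) (norm_nonneg _)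
    (Real.exp_nonneg _)

/-- the integral against a bounded function is an entire function -/
theorem differentiable_int (p : ℝ) (hp : 0 < p) (K : Set ℂ) (hK : volume K ≠ ∞)
    (hKm : MeasurableSet K) (c : ℝ) (hc : 1 ≤ c) (u φ : ℂ → ℂ) (hu : Measurable u)
    (huK : ∀ z ∈ K, 1 / c ≤ ‖u z‖ ∧ ‖u z‖ ≤ c) (hφ : Measurable φ) (C : ℝ) (hφC : ∀ z, ‖φ z‖ ≤ C) :
    Differentiable ℂ fun w => ∫ z in K, fb p (u z) w * φ z := by
  intro w₀
  have hC : 0 ≤ C := (norm_nonneg _).trans (hφC 0)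
  have hc0 : 0 < c := by linarith
  have hfin : IsFiniteMeasure (volume.restrict K) := ⟨by
    rw [Measure.restrict_apply_univ]; exact lt_top_iff_ne_top.2 hK⟩
  have hm : ∀ w, AEStronglyMeasurable (fun z => fb p (u z) w * φ z) (volume.restrict K) :=
    fun w => (((measurable_fb p w).comp hu).mul hφ).aestronglyMeasurable
  have hint := integrable_int p hp K hK hKm c hc u φ hu huK hφ C hφC
  have key := hasDerivAt_integral_of_dominated_loc_of_deriv_le
    (F := fun w z => fb p (u z) w * φ z) (x₀ := w₀) (s := Metric.ball w₀ 1)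
    (μ := volume.restrict K)
    (F' := fun w z => fb p (u z) w * (-(p : ℂ) * (Real.log ‖u z‖ : ℂ)) * φ z)
    (bound := fun _ => Real.exp (p * (1 + (|w₀.re| + 1)) * Real.log c) * (p * Real.log c) * C)
    (Metric.ball_mem_nhds _ one_pos) (Eventually.of_forall hm) (hint w₀)
    (by
      have h1 : Measurable fun z => (Real.log ‖u z‖ : ℂ) :=
        Complex.measurable_ofReal.comp (Real.measurable_log.comp hu.norm)
      exact ((((measurable_fb p w₀).comp hu).mul (h1.const_mul _)).mul hφ).aestronglyMeasurable)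
    (by
      rw [ae_restrict_iff' hKm]
      refine Eventually.of_forall fun z hz w hw => ?_
      rw [norm_mul, norm_mul, norm_mul, norm_neg, Complex.norm_real, Complex.norm_real,
        Real.norm_of_nonneg hp.le, Real.norm_eq_abs]
      have h1 : |w.re| ≤ |w₀.re| + 1 := by
        have h2 : |w.re - w₀.re| ≤ ‖w - w₀‖ := by
          rw [← Complex.sub_re]; exact Complex.abs_re_le_norm _
        have h3 : ‖w - w₀‖ < 1 := by
          rw [← dist_eq_norm]; exact hw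
        have h4 : |w.re| ≤ |w₀.re| + |w.re - w₀.re| := by
          have := abs_add_le w₀.re (w.re - w₀.re)
          rwa [add_sub_cancel] at this
        linarith
      have h2 : ‖fb p (u z) w‖ ≤ Real.exp (p * (1 + (|w₀.re| + 1)) * Real.log c) := by
        refine (fb_bound p hp c hc _ (huK z hz).1 (huK z hz).2 w).trans (Real.exp_le_exp.2 ?_)
        have := Real.log_nonneg hc
        gcongr
      have h3 := log_bound c hc _ (huK z hz).1 (huK z hz).2
      have h4 := hφC z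
      have h5 := Real.log_nonneg hc
      gcongr)
    (integrable_const _)
    (by
      refine Eventually.of_forall fun z w _ => ?_
      exact (hasDerivAt_fb p (u z) w).mul_const (φ z))
  exact key.2.differentiableAt

end Pool.Agent.Q265.BA
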