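import Pool.Agent.Q265.BA.G1

/-!
# Project BA, job G, part 2: the three lines theorem for simple functions
-/

set_option autoImplicit false

open MeasureTheory Set Filter Topology
open scoped ENNReal

namespace Pool.Agent.Q265.BA

open Pool.Agent.Q276.BA

variable {A : (ℂ → ℂ) → ℂ → ℂ} {M : ℝ}

/-- the indicator function of a level set -/
noncomputable def ind (F : SimpleFunc ℂ ℂ) (a : ℂ) : ℂ → ℂ := (F ⁻¹' {a}).indicator fun _ => 1

theorem ind_le (F : SimpleFunc ℂ ℂ) (a z : ℂ) : ‖ind F a z‖ ≤ 1 := by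
  unfold ind
  refine (norm_indicator_le_norm_self _ _).trans ?_
  simp

theorem measurable_ind (F : SimpleFunc ℂ ℂ) (a : ℂ) : Measurable (ind F a) :=
  measurable_const.indicator (F.measurableSet_fiber a)

theorem bm_ind (F : SimpleFunc ℂ ℂ) (a : ℂ) : BM (ind F a) :=
  ⟨measurable_ind F a, 1, ind_le F a⟩

theorem op_zero (hA : Op A M) : A (fun _ => 0) = fun _ => 0 := by
  have h := hA.smul 0 (fun _ => 0) ⟨measurable_const, 0, fun _ => by simp⟩
  simpa using h

theorem bm_sum (s : Finset ℂ) (c : ℂ → ℂ) (g : ℂ → ℂ → ℂ) (hg : ∀ a, BM (g a)) :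
    BM fun z => ∑ a ∈ s, c a * g a z := by
  refine ⟨Finset.measurable_sum _ fun a _ => (hg a).1.const_mul _, ?_⟩
  choose hm C hC using hg
  refine ⟨∑ a ∈ s, ‖c a‖ * C a, fun z => (norm_sum_le _ _).trans ?_⟩
  refine Finset.sum_le_sum fun a _ => ?_
  rw [norm_mul]
  exact mul_le_mul_of_nonneg_left (hC a z) (norm_nonneg _)

theorem op_sum (hA : Op A M) (s : Finset ℂ) (c : ℂ → ℂ) (g : ℂ → ℂ → ℂ) (hg : ∀ a, BM (g a)) :
    A (fun z => ∑ a ∈ s, c a * g a z) = fun z => ∑ a ∈ s, c a * A (g a) z := by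
  classical
  induction s using Finset.induction_on with
  | empty => simpa using op_zero hA
  | insert a s ha ih =>
    have h1 : BM (fun z => c a * g a z) := by
      obtain ⟨hm, C, hC⟩ := hg a
      refine ⟨hm.const_mul _, ‖c a‖ * C, fun z => ?_⟩
      rw [norm_mul]
      exact mul_le_mul_of_nonneg_left (hC z) (norm_nonneg _)
    have h3 := hA.add _ _ h1 (bm_sum s c g hg)
    simp only [Finset.sum_insert ha]
    rw [h3, hA.smul _ _ (hg a), ih]

/-- the decomposition in level sets -/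
theorem fa_decomp (p : ℝ) (F : SimpleFunc ℂ ℂ) (w : ℂ) :
    (fun z => fa p (F z) w) = fun z => ∑ a ∈ F.range, fa p a w * ind F a z := by
  funext z
  rw [Finset.sum_eq_single (F z)]
  · unfold ind
    rw [indicator_of_mem (by simp), mul_one]
  · intro b _ hb
    unfold ind
    rw [indicator_of_notMem (by simpa using fun h => hb h.symm), mul_zero]
  · intro h
    exact absurd (F.mem_range_self z) h

theorem A_fa (hA : Op A M) (p : ℝ) (F : SimpleFunc ℂ ℂ) (w z : ℂ) :
    A (fun z => fa p (F z) w) z = ∑ a ∈ F.range, fa p a w * A (ind F a) z := by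
  rw [fa_decomp, op_sum hA F.range (fun a => fa p a w) (fun a => ind F a) (bm_ind F)]

theorem bm_simple (F : SimpleFunc ℂ ℂ) : BM F := ⟨F.measurable, F.exists_forall_norm_le⟩

theorem bm_fa (p : ℝ) (F : SimpleFunc ℂ ℂ) (w : ℂ) : BM (fun z => fa p (F z) w) := by
  rw [fa_decomp]
  exact bm_sum _ _ _ (bm_ind F)

/-- the entire function -/
noncomputable def J (A : (ℂ → ℂ) → ℂ → ℂ) (p : ℝ) (K : Set ℂ) (F : SimpleFunc ℂ ℂ) (u : ℂ → ℂ)
    (w : ℂ) : ℂ :=
  ∫ z in K, fb p (u z) w * A (fun z => fa p (F z) w) z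

theorem differentiable_J (hA : Op A M) (p : ℝ) (hp : 0 < p) (K : Set ℂ) (hK : volume K ≠ ∞)
    (hKm : MeasurableSet K) (c : ℝ) (hc : 1 ≤ c) (u : ℂ → ℂ) (hu : Measurable u)
    (huK : ∀ z ∈ K, 1 / c ≤ ‖u z‖ ∧ ‖u z‖ ≤ c) (F : SimpleFunc ℂ ℂ) :
    Differentiable ℂ (J A p K F u) := by
  have h1 : J A p K F u = fun w => ∑ a ∈ F.range, fa p a w *
      ∫ z in K, fb p (u z) w * A (ind F a) z := by
    funext w
    unfold J
    have h2 : (fun z => fb p (u z) w * A (fun z => fa p (F z) w) z) =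
        fun z => ∑ a ∈ F.range, fa p a w * (fb p (u z) w * A (ind F a) z) := by
      funext z
      rw [A_fa hA, Finset.mul_sum]
      refine Finset.sum_congr rfl fun a _ => ?_
      ring
    rw [h2, integral_finsetSum]
    · refine Finset.sum_congr rfl fun a _ => ?_
      rw [integral_const_mul]
    · intro a _
      refine Integrable.const_mul ?_ _
      exact integrable_int p hp K hK hKm c hc u _ hu huK (hA.meas _ (bm_ind F a)) (M * 1)
        (hA.linf _ (measurable_ind F a) 1 (ind_le F a)) w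
  rw [h1]
  have h3 : ∀ a ∈ F.range, Differentiable ℂ fun w => fa p a w *
      ∫ z in K, fb p (u z) w * A (ind F a) z := by
    intro a _
    refine (differentiable_fa p a).mul ?_
    exact differentiable_int p hp K hK hKm c hc u _ hu huK (hA.meas _ (bm_ind F a)) (M * 1)
        (hA.linf _ (measurable_ind F a) 1 (ind_le F a))
  have h4 := Differentiable.fun_sum (u := F.range) h3
  exact h4

theorem enorm_fb (p : ℝ) (hp : 0 < p) (t w : ℂ) (hw : w.re < 1) :
    ‖fb p t w‖ₑ = ‖t‖ₑ ^ (p * (1 - w.re)) := by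
  have hw' : 0 < 1 - w.re := by linarith
  have h1 : ‖fb p t w‖ = ‖t‖ ^ (p * (1 - w.re)) := by
    rcases eq_or_ne t 0 with rfl | ht
    · rw [fb_zero, norm_zero, Real.zero_rpow (by positivity)]
    · exact norm_fb p t w ht
  rw [← ofReal_norm, h1, ← ofReal_norm, ENNReal.ofReal_rpow_of_nonneg (norm_nonneg _)
    (by positivity)]

/-- the bound on the left line -/
theorem line0 (hA : Op A M) (p : ℝ) (hp : 0 < p) (K : Set ℂ)
    (u : ℂ → ℂ) (hu : Measurable u) (F : SimpleFunc ℂ ℂ) (w : ℂ) (hw : w.re = 0) :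
    ‖J A p K F u w‖ₑ ≤ (∫⁻ z in K, ‖u z‖ₑ ^ p) * ENNReal.ofReal M := by
  unfold J
  refine (enorm_integral_le_lintegral_enorm _).trans ?_
  rw [← lintegral_mul_const]
  · refine lintegral_mono fun z => ?_
    have h1 : ‖A (fun z => fa p (F z) w) z‖ ≤ M * 1 :=
      hA.linf _ (bm_fa p F w).1 1 (fun z => fa_zero_line p _ w hw) z
    have h2 : ‖A (fun z => fa p (F z) w) z‖ₑ ≤ ENNReal.ofReal M := by
      rw [← ofReal_norm]
      exact ENNReal.ofReal_le_ofReal (by linarith)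
    rw [enorm_mul, enorm_fb p hp _ w (by rw [hw]; norm_num), hw, sub_zero, mul_one]
    gcongr
  · exact (hu.enorm).pow_const p

/-- the bound on the right line -/
theorem line1 (hA : Op A M) (p : ℝ) (hp : 0 < p) (K : Set ℂ)
    (u : ℂ → ℂ) (hu : Measurable u) (F : SimpleFunc ℂ ℂ) (w : ℂ) (hw : w.re = 1 / 2) :
    ‖J A p K F u w‖ₑ ≤ (∫⁻ z in K, ‖u z‖ₑ ^ p) ^ (1 / 2 : ℝ) *
      (∫⁻ z, ‖F z‖ₑ ^ p) ^ (1 / 2 : ℝ) := by
  unfold J
  refine (enorm_integral_le_lintegral_enorm _).trans ?_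
  have hm1 : Measurable fun z => ‖fb p (u z) w‖ₑ := ((measurable_fb p w).comp hu).enorm
  have hm2 : Measurable fun z => ‖A (fun z => fa p (F z) w) z‖ₑ :=
    (hA.meas _ (bm_fa p F w)).enorm
  have h1 := ENNReal.lintegral_mul_le_Lp_mul_Lq (volume.restrict K)
    Real.HolderConjugate.two_two hm1.aemeasurable hm2.aemeasurable
  have h2 : (fun z => ‖fb p (u z) w * A (fun z => fa p (F z) w) z‖ₑ) =
      (fun z => ‖fb p (u z) w‖ₑ) * (fun z => ‖A (fun z => fa p (F z) w) z‖ₑ) := by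
    funext z
    rw [Pi.mul_apply, enorm_mul]
  rw [h2]
  refine h1.trans ?_
  refine mul_le_mul' (ENNReal.rpow_le_rpow ?_ (by norm_num)) (ENNReal.rpow_le_rpow ?_ (by norm_num))
  · refine lintegral_mono fun z => ?_
    rw [enorm_fb p hp _ w (by rw [hw]; norm_num), ← ENNReal.rpow_mul, hw]
    apply le_of_eq
    congr 1
    ring
  · calc ∫⁻ z in K, ‖A (fun z => fa p (F z) w) z‖ₑ ^ (2 : ℝ)
        ≤ ∫⁻ z, ‖A (fun z => fa p (F z) w) z‖ₑ ^ (2 : ℝ) := setLIntegral_le_lintegral _ _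
      _ = ∫⁻ z, ‖A (fun z => fa p (F z) w) z‖ₑ ^ 2 := by
          refine lintegral_congr fun z => ?_
          exact ENNReal.rpow_two _
      _ ≤ ∫⁻ z, ‖fa p (F z) w‖ₑ ^ 2 := hA.l2 _ (bm_fa p F w)
      _ = ∫⁻ z, ‖F z‖ₑ ^ p := by
          refine lintegral_congr fun z => ?_
          have h3 := fa_half_line p hp (F z) w hw
          rw [← ofReal_norm, ← ofReal_norm, ENNReal.ofReal_rpow_of_nonneg (norm_nonneg _) hp.le,
            ← h3, ← ENNReal.ofReal_rpow_of_nonneg (norm_nonneg _) zero_le_two, ENNReal.rpow_two]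

end Pool.Agent.Q265.BA
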