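import Pool.Agent.Q265.BA.G2

/-!
# Project BA, job G, part 3: interpolation for simple functions
-/

set_option autoImplicit false

open MeasureTheory Set Filter Topology
open scoped ENNReal

namespace Pool.Agent.Q265.BA

open Pool.Agent.Q276.BA

variable {A : (ℂ → ℂ) → ℂ → ℂ} {M : ℝ}

theorem J_at (p : ℝ) (hp : 0 < p) (K : Set ℂ) (F : SimpleFunc ℂ ℂ) (hu : Measurable (A F)) :
    J A p K F (A F) ((1 / p : ℝ) : ℂ) =
      (((∫⁻ z in K, ‖A F z‖ₑ ^ p).toReal : ℝ) : ℂ) := by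
  unfold J
  have h1 : (fun z => fa p (F z) ((1 / p : ℝ) : ℂ)) = F := by
    funext z
    exact fa_at p hp (F z)
  have h2 : (fun z => fb p (A F z) ((1 / p : ℝ) : ℂ) *
      A (fun z => fa p (F z) ((1 / p : ℝ) : ℂ)) z) = fun z => ((‖A F z‖ ^ p : ℝ) : ℂ) := by
    funext z
    rw [h1]
    exact fb_at p hp (A F z)
  rw [h2, integral_complex_ofReal]
  congr 1
  rw [integral_eq_lintegral_of_nonneg_ae]
  · congr 1
    refine lintegral_congr fun z => ?_
    rw [← ENNReal.ofReal_rpow_of_nonneg (norm_nonneg _) hp.le, ofReal_norm]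
  · exact Eventually.of_forall fun z => by positivity
  · exact (hu.norm.pow_const p).aestronglyMeasurable

theorem key_alg (p M B D : ℝ) (hp : 2 ≤ p) (hM : 1 ≤ M) (hB : 0 ≤ B) (hD : 0 ≤ D)
    (h : B ≤ (B * M) ^ (1 - (1 / p - 0) / (1 / 2 - 0)) *
      (B ^ (1 / 2 : ℝ) * D ^ (1 / 2 : ℝ)) ^ ((1 / p - 0) / (1 / 2 - 0))) :
    B ^ (1 / p) ≤ M ^ (1 - 2 / p) * D ^ (1 / p) := by
  have hp0 : 0 < p := by linarith
  have hM0 : 0 ≤ M := by linarith
  have hs : (1 / p - 0) / (1 / 2 - 0) = 2 / p := by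
    field_simp
    ring
  rw [hs] at h
  rcases hB.eq_or_lt with h0 | hBpos
  · rw [← h0, Real.zero_rpow (by positivity)]
    positivity
  have f1 : (B * M) ^ (1 - 2 / p) = B ^ (1 - 2 / p) * M ^ (1 - 2 / p) :=
    Real.mul_rpow hB hM0
  have f2 : (B ^ (1 / 2 : ℝ) * D ^ (1 / 2 : ℝ)) ^ (2 / p) = B ^ (1 / p) * D ^ (1 / p) := by
    rw [Real.mul_rpow (by positivity) (by positivity), ← Real.rpow_mul hB, ← Real.rpow_mul hD]
    congr 2 <;> ring
  have g1 : B ^ (1 - 2 / p) * B ^ (1 / p) = B ^ (1 - 1 / p) := by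
    rw [← Real.rpow_add hBpos]
    congr 1
    ring
  have key2 : B ≤ B ^ (1 - 1 / p) * (M ^ (1 - 2 / p) * D ^ (1 / p)) := by
    rw [f1, f2] at h
    calc B ≤ B ^ (1 - 2 / p) * M ^ (1 - 2 / p) * (B ^ (1 / p) * D ^ (1 / p)) := h
      _ = (B ^ (1 - 2 / p) * B ^ (1 / p)) * (M ^ (1 - 2 / p) * D ^ (1 / p)) := by ring
      _ = _ := by rw [g1]
  have h1 : B = B ^ (1 - 1 / p) * B ^ (1 / p) := by
    rw [← Real.rpow_add hBpos]
    simp
  have h2 : 0 < B ^ (1 - 1 / p) := by positivity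
  have h3 : B ^ (1 - 1 / p) * B ^ (1 / p) ≤ B ^ (1 - 1 / p) * (M ^ (1 - 2 / p) * D ^ (1 / p)) := by
    rw [← h1]
    exact key2
  exact le_of_mul_le_mul_left h3 h2

/-- the bound on a set where the function is between two positive constants -/
theorem onK (hA : Op A M) (hM : 1 ≤ M) (p : ℝ) (hp : 2 ≤ p) (K : Set ℂ) (hK : volume K ≠ ∞)
    (hKm : MeasurableSet K) (c : ℝ) (hc : 1 ≤ c) (F : SimpleFunc ℂ ℂ)
    (hF : ∫⁻ z, ‖F z‖ₑ ^ p ≠ ∞) (huK : ∀ z ∈ K, 1 / c ≤ ‖A F z‖ ∧ ‖A F z‖ ≤ c) :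
    ∫⁻ z in K, ‖A F z‖ₑ ^ p ≤ (ENNReal.ofReal (M ^ (1 - 2 / p)) *
      (∫⁻ z, ‖F z‖ₑ ^ p) ^ (1 / p)) ^ p := by
  have hp0 : 0 < p := by linarith
  have hM0 : 0 ≤ M := by linarith
  have hu : Measurable (A F) := hA.meas _ (bm_simple F)
  have hBfin : ∫⁻ z in K, ‖A F z‖ₑ ^ p ≠ ∞ := by
    have h1 : ∫⁻ z in K, ‖A F z‖ₑ ^ p ≤ ∫⁻ _ in K, ENNReal.ofReal c ^ p := by
      refine setLIntegral_mono' hKm fun z hz => ?_
      refine ENNReal.rpow_le_rpow ?_ hp0.le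
      rw [← ofReal_norm]
      exact ENNReal.ofReal_le_ofReal (huK z hz).2
    refine ne_top_of_le_ne_top ?_ h1
    rw [lintegral_const, Measure.restrict_apply_univ]
    exact ENNReal.mul_ne_top (ENNReal.rpow_ne_top_of_nonneg hp0.le ENNReal.ofReal_ne_top) hK
  set B := (∫⁻ z in K, ‖A F z‖ₑ ^ p).toReal with hB
  set D := (∫⁻ z, ‖F z‖ₑ ^ p).toReal with hD
  have hB0 : 0 ≤ B := ENNReal.toReal_nonneg
  have hD0 : 0 ≤ D := ENNReal.toReal_nonneg
  have hBe : ∫⁻ z in K, ‖A F z‖ₑ ^ p = ENNReal.ofReal B := (ENNReal.ofReal_toReal hBfin).symm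
  have hDe : ∫⁻ z, ‖F z‖ₑ ^ p = ENNReal.ofReal D := (ENNReal.ofReal_toReal hF).symm
  obtain ⟨CF, hCF⟩ := F.exists_forall_norm_le
  have hCF0 : 0 ≤ CF := (norm_nonneg _).trans (hCF 0)
  have key := Complex.HadamardThreeLines.norm_le_interp_of_mem_verticalClosedStrip'
    (f := J A p K F (A F)) (z := ((1 / p : ℝ) : ℂ)) (a := B * M)
    (b := B ^ (1 / 2 : ℝ) * D ^ (1 / 2 : ℝ)) (l := 0) (u := 1 / 2) (by norm_num)
    (by
      show ((1 / p : ℝ) : ℂ).re ∈ Icc 0 (1 / 2)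
      rw [Complex.ofReal_re]
      exact ⟨by positivity, one_div_le_one_div_of_le two_pos hp⟩)
    (differentiable_J hA p hp0 K hK hKm c hc _ hu huK F).diffContOnCl
    (by
      refine ⟨(1 + c) ^ p * (M * (1 + CF) ^ p) * volume.real K, ?_⟩
      rintro _ ⟨w, hw, rfl⟩
      have hw' : 0 ≤ w.re ∧ w.re ≤ 1 / 2 := hw
      show ‖J A p K F (A F) w‖ ≤ _
      unfold J
      refine norm_setIntegral_le_of_norm_le_const (lt_top_iff_ne_top.2 hK) fun z hz => ?_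
      rw [norm_mul]
      refine mul_le_mul ?_ ?_ (norm_nonneg _) (by positivity)
      · refine (fb_strip p hp0 _ w hw'.1 hw'.2).trans ?_
        have := (huK z hz).2
        gcongr
      · refine hA.linf _ (bm_fa p F w).1 _ (fun z => ?_) z
        refine (fa_strip p hp0 _ w hw'.1 hw'.2).trans ?_
        have := hCF z
        gcongr)
    (by
      intro w hw
      have h1 := line0 hA p hp0 K _ hu F w hw
      rw [hBe, ← ENNReal.ofReal_mul hB0, ← ofReal_norm] at h1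
      exact (ENNReal.ofReal_le_ofReal_iff (by positivity)).1 h1)
    (by
      intro w hw
      have h1 := line1 hA p hp0 K _ hu F w hw
      rw [hBe, hDe, ENNReal.ofReal_rpow_of_nonneg hB0 (by norm_num),
        ENNReal.ofReal_rpow_of_nonneg hD0 (by norm_num),
        ← ENNReal.ofReal_mul (by positivity), ← ofReal_norm] at h1
      exact (ENNReal.ofReal_le_ofReal_iff (by positivity)).1 h1)
  rw [J_at p hp0 K F hu, Complex.norm_real, Real.norm_of_nonneg hB0, Complex.ofReal_re] at key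
  have h1 := key_alg p M B D hp hM hB0 hD0 key
  rw [hBe, hDe, ENNReal.ofReal_rpow_of_nonneg hD0 (by positivity),
    ← ENNReal.ofReal_mul (by positivity), ENNReal.ofReal_rpow_of_nonneg (by positivity) hp0.le]
  refine ENNReal.ofReal_le_ofReal ?_
  calc B = (B ^ (1 / p)) ^ p := by
        rw [← Real.rpow_mul hB0, one_div_mul_cancel hp0.ne', Real.rpow_one]
    _ ≤ _ := by gcongr

/-- the bound for simple functions -/
theorem simple_bound (hA : Op A M) (hM : 1 ≤ M) (p : ℝ) (hp : 2 ≤ p) (F : SimpleFunc ℂ ℂ)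
    (hF : ∫⁻ z, ‖F z‖ₑ ^ p ≠ ∞) :
    ∫⁻ z, ‖A F z‖ₑ ^ p ≤ (ENNReal.ofReal (M ^ (1 - 2 / p)) *
      (∫⁻ z, ‖F z‖ₑ ^ p) ^ (1 / p)) ^ p := by
  have hp0 : 0 < p := by linarith
  have hu : Measurable (A F) := hA.meas _ (bm_simple F)
  have hF2 : ∫⁻ z, ‖F z‖ₑ ^ 2 < ∞ := by
    have h1 : MemLp F (ENNReal.ofReal p) (volume : Measure ℂ) := by
      refine ⟨F.measurable.aestronglyMeasurable, ?_⟩
      rw [eLpNorm_lt_top_iff_lintegral_rpow_enorm_lt_top (by simpa using hp0)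
        ENNReal.ofReal_ne_top, ENNReal.toReal_ofReal hp0.le]
      exact lt_top_iff_ne_top.2 hF
    have h2 : F.FinMeasSupp volume :=
      (SimpleFunc.memLp_iff_finMeasSupp (by simpa using hp0) ENNReal.ofReal_ne_top).1 h1
    have h3 : MemLp F 2 (volume : Measure ℂ) :=
      (SimpleFunc.memLp_iff_finMeasSupp two_ne_zero ENNReal.ofNat_ne_top).2 h2
    have h4 := (eLpNorm_lt_top_iff_lintegral_rpow_enorm_lt_top (f := F) (μ := (volume : Measure ℂ))
      two_ne_zero ENNReal.ofNat_ne_top).1 h3.2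
    simpa using h4
  have hu2 : ∫⁻ z, ‖A F z‖ₑ ^ 2 < ∞ := (hA.l2 _ (bm_simple F)).trans_lt hF2
  let K : ℕ → Set ℂ := fun N => {z | 1 / ((N : ℝ) + 1) ≤ ‖A F z‖ ∧ ‖A F z‖ ≤ (N : ℝ) + 1}
  have hKm : ∀ N, MeasurableSet (K N) := fun N =>
    (measurableSet_le measurable_const hu.norm).inter (measurableSet_le hu.norm measurable_const)
  have hK : ∀ N, volume (K N) ≠ ∞ := by
    intro N hN
    have h1 := mul_meas_ge_le_lintegral (μ := (volume : Measure ℂ))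
      (f := fun z => ‖A F z‖ₑ ^ 2) (hu.enorm.pow_const 2)
      (ENNReal.ofReal (1 / ((N : ℝ) + 1)) ^ 2)
    have h2 : K N ⊆ {z | ENNReal.ofReal (1 / ((N : ℝ) + 1)) ^ 2 ≤ ‖A F z‖ₑ ^ 2} := by
      intro z hz
      show ENNReal.ofReal (1 / ((N : ℝ) + 1)) ^ 2 ≤ ‖A F z‖ₑ ^ 2
      rw [← ofReal_norm]
      gcongr
      exact hz.1
    have h3 : volume {z | ENNReal.ofReal (1 / ((N : ℝ) + 1)) ^ 2 ≤ ‖A F z‖ₑ ^ 2} = ∞ :=
      top_le_iff.1 (hN ▸ measure_mono h2)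
    rw [h3, ENNReal.mul_top] at h1
    · exact absurd (h1.trans_lt hu2) (lt_irrefl _)
    · have : (0 : ℝ) < 1 / ((N : ℝ) + 1) := by positivity
      simpa using this
  have hmono : Monotone K := by
    intro a b hab z hz
    have hab' : (a : ℝ) ≤ b := by exact_mod_cast hab
    refine ⟨le_trans ?_ hz.1, hz.2.trans (by linarith)⟩
    exact one_div_le_one_div_of_le (by positivity) (by linarith)
  have h1 : ∀ N, ∫⁻ z in K N, ‖A F z‖ₑ ^ p ≤ (ENNReal.ofReal (M ^ (1 - 2 / p)) *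
      (∫⁻ z, ‖F z‖ₑ ^ p) ^ (1 / p)) ^ p := fun N =>
    onK hA hM p hp (K N) (hK N) (hKm N) ((N : ℝ) + 1) (by
      have : (0 : ℝ) ≤ N := N.cast_nonneg
      linarith) F hF (fun z hz => hz)
  have h2 : ∫⁻ z, ‖A F z‖ₑ ^ p = ∫⁻ z in ⋃ N, K N, ‖A F z‖ₑ ^ p := by
    rw [← lintegral_indicator (MeasurableSet.iUnion hKm)]
    refine lintegral_congr fun z => ?_
    rcases eq_or_ne (A F z) 0 with h0 | h0
    · by_cases hz : z ∈ ⋃ N, K N
      · rw [indicator_of_mem hz]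
      · rw [indicator_of_notMem hz, h0, enorm_zero, ENNReal.zero_rpow_of_pos hp0]
    · rw [indicator_of_mem]
      have hpos : 0 < ‖A F z‖ := norm_pos_iff.2 h0
      obtain ⟨N, hN⟩ := exists_nat_ge (max ‖A F z‖ (1 / ‖A F z‖))
      refine mem_iUnion.2 ⟨N, ?_, ?_⟩
      · rw [one_div_le (by positivity) hpos]
        have := (le_max_right _ _).trans hN
        linarith
      · have := (le_max_left _ _).trans hN
        linarith
  rw [h2, setLIntegral_iUnion_of_directed _ hmono.directed_le]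
  exact iSup_le h1

end Pool.Agent.Q265.BA
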